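import Pool.Agent.T9h16.QL.Spec
import Pool.Agent.T9h71.QC.ExchB

/-!
# The exchange and one shape, for every density (pieces D, F1)
-/

set_option autoImplicit false

namespace Pool.Agent.T9h71.QL

open Finset Pool.Agent.T9h34.Q Pool.Agent.T9h16.QL Pool.Agent.T9h71.QC
open Pool.Agent.PC34 (prob)

/-- PIECE (D) -/
theorem stExchL (hDet : StDet) (hRot : StRotB) (hFib : StFibre) : StExchL := by
  classical
  intro V _ _ _ L a₀ B d m j a ha hL hj h1j h1m h hh C A par hAC hpar hleaf
  have : Nonempty (Fin L) := ⟨⟨0, hL⟩⟩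
  set Lb : Type := Sym2 V → Fin L with hLb
  set M : Type := Ix B d m → V with hM
  set Pk : Type := Ix B d m → Packet V B d m with hPk
  have hK : 0 < Nat.card M := Nat.card_pos
  have hLc : Nat.card {x : (Fin j → V) × EnvL V L B d m //
      Function.Injective x.1 ∧ CritS h (toEnv a₀ x.2) a x.1 C A par} =
      ∑ lab : Lb, Nat.card {x : (Fin j → V) × Pk × (V → M) //
        Function.Injective x.1 ∧ CritS h (low lab a₀, x.2) a x.1 C A par} := by
    rw [← card_sub_prod (fun (lab : Lb) (x : (Fin j → V) × Pk × (V → M)) =>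
      Function.Injective x.1 ∧ CritS h (low lab a₀, x.2) a x.1 C A par)]
    refine Nat.card_congr (Equiv.subtypeEquiv
      ((Equiv.prodAssoc (Fin j → V) Lb (Pk × (V → M))).symm.trans
        ((Equiv.prodCongr (Equiv.prodComm _ _) (Equiv.refl _)).trans (Equiv.prodAssoc _ _ _)))
      fun y => Iff.rfl)
  have hR : Nat.card {x : Lb × (Fin j → V) × (Fin j → M) × Pk //
      h (baseG (low x.1 a₀) x.2.2.2 a) < h (baseG (low x.1 a₀) x.2.2.2 a ∪
        allG x.2.1 x.2.2.1 x.2.2.2 ⟨a, ha⟩ C par)} =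
      ∑ lab : Lb, Nat.card {x : (Fin j → V) × (Fin j → M) × Pk //
        h (baseG (low lab a₀) x.2.2 a) < h (baseG (low lab a₀) x.2.2 a ∪
          allG x.1 x.2.1 x.2.2 ⟨a, ha⟩ C par)} :=
    card_sub_prod (fun (lab : Lb) (x : (Fin j → V) × (Fin j → M) × Pk) =>
      h (baseG (low lab a₀) x.2.2 a) < h (baseG (low lab a₀) x.2.2 a ∪
        allG x.1 x.2.1 x.2.2 ⟨a, ha⟩ C par))
  have hsum : (m + 1) ^ j * Nat.card {x : (Fin j → V) × EnvL V L B d m //
      Function.Injective x.1 ∧ CritS h (toEnv a₀ x.2) a x.1 C A par} * Nat.card M ^ j ≤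
      Nat.card {x : Lb × (Fin j → V) × (Fin j → M) × Pk //
      h (baseG (low x.1 a₀) x.2.2.2 a) < h (baseG (low x.1 a₀) x.2.2.2 a ∪
        allG x.2.1 x.2.2.1 x.2.2.2 ⟨a, ha⟩ C par)} * Nat.card M ^ Fintype.card V := by
    rw [hLc, hR, Finset.mul_sum, Finset.sum_mul, Finset.sum_mul]
    exact Finset.sum_le_sum fun lab _ => exch_count hDet hRot hFib V B d m j a ha hj h1j h1m h hh
      (low lab a₀) C A par hAC hpar hleaf
  have c1 : Nat.card ((Fin j → V) × EnvL V L B d m) * Nat.card M ^ j =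
      Nat.card (Lb × (Fin j → V) × (Fin j → M) × Pk) * Nat.card M ^ Fintype.card V := by
    show Nat.card ((Fin j → V) × Lb × Pk × (V → M)) * Nat.card M ^ j = _
    rw [Nat.card_prod, Nat.card_prod, Nat.card_prod, Nat.card_prod, Nat.card_prod, Nat.card_prod,
      Nat.card_fun (α := Fin j) (β := M), Nat.card_fun (α := V) (β := M), Nat.card_fin,
      Nat.card_eq_fintype_card (α := V)]
    ring
  have p1 : 0 < Nat.card ((Fin j → V) × EnvL V L B d m) := Nat.card_pos
  have p2 : 0 < Nat.card (Lb × (Fin j → V) × (Fin j → M) × Pk) := Nat.card_pos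
  rw [prob_card, prob_card, ← mul_div_assoc, div_le_div_iff₀ (by exact_mod_cast p1)
    (by exact_mod_cast p2)]
  have q0 : 0 < Nat.card M ^ j := pow_pos hK _
  have q1 : 0 < Nat.card M ^ Fintype.card V := pow_pos hK _
  refine le_of_mul_le_mul_right ?_ (by exact_mod_cast mul_pos q0 q1 :
    (0 : ℝ) < ((Nat.card M ^ j * Nat.card M ^ Fintype.card V : ℕ) : ℝ))
  have key := Nat.mul_le_mul_right
    (Nat.card (Lb × (Fin j → V) × (Fin j → M) × Pk) * Nat.card M ^ Fintype.card V) hsum
  have key' : (m + 1) ^ j * Nat.card {x : (Fin j → V) × EnvL V L B d m //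
      Function.Injective x.1 ∧ CritS h (toEnv a₀ x.2) a x.1 C A par} *
      Nat.card (Lb × (Fin j → V) × (Fin j → M) × Pk) *
      (Nat.card M ^ j * Nat.card M ^ Fintype.card V) ≤
      Nat.card {x : Lb × (Fin j → V) × (Fin j → M) × Pk //
      h (baseG (low x.1 a₀) x.2.2.2 a) < h (baseG (low x.1 a₀) x.2.2.2 a ∪
        allG x.2.1 x.2.2.1 x.2.2.2 ⟨a, ha⟩ C par)} * Nat.card ((Fin j → V) × EnvL V L B d m) *
      (Nat.card M ^ j * Nat.card M ^ Fintype.card V) := by
    rw [← c1] at key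
    calc _ = (m + 1) ^ j * Nat.card {x : (Fin j → V) × EnvL V L B d m //
          Function.Injective x.1 ∧ CritS h (toEnv a₀ x.2) a x.1 C A par} * Nat.card M ^ j *
          (Nat.card (Lb × (Fin j → V) × (Fin j → M) × Pk) *
            Nat.card M ^ Fintype.card V) := by ring
      _ = _ := by rw [← c1]
      _ ≤ _ := key
      _ = _ := by ring
  exact_mod_cast key'

/-- PIECE (F1) -/
theorem stShapeL (hCov : StCover) (hExt : StExtraL) : StShapeL := by
  classical
  intro V _ _ _ L a₀ B d m j a h1a haL h hh δ F A hF hA hE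
  obtain ⟨C, par, hAC, hpar, hleaf⟩ := hCov j F A hF hA
  set Lb : Type := Sym2 V → Fin L with hLb
  set Q : Type := (Ix B d m → Packet V B d m) × (V → Ix B d m → V) with hQ
  set CS : Lb → (Fin j → V) → Q → Prop := fun lab φ q =>
    Function.Injective φ ∧ CritS h (low lab a₀, q) a φ C A par with hCS
  set CR : Lb → (Fin j → V) → Q → Prop := fun lab φ q =>
    Function.Injective φ ∧ Crit h (low lab a₀, q) a (F.image (Sym2.map φ)) (A.image φ)
      (univ.image φ) with hCR
  have h1 : ∀ (φ : Fin j → V) (q : Q), a₀ ^ F.card * Nat.card {lab // CR lab φ q} ≤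
      L ^ F.card * Nat.card {lab // CS lab φ q} := by
    intro φ q
    by_cases hφ : Function.Injective φ
    · have h2 := hExt V L a₀ B d m j a haL h hh φ hφ F C A par hAC hpar q.1 q.2
      refine le_trans (Nat.mul_le_mul_left _ (card_sub_mono fun G hG => ?_))
        (h2.trans (Nat.mul_le_mul_left _ (card_sub_mono fun G hG => ?_)))
      · exact hG.2
      · exact ⟨hφ, hG⟩
    · have : IsEmpty {lab // CR lab φ q} := ⟨fun G => hφ G.2.1⟩
      rw [Nat.card_of_isEmpty, mul_zero]
      exact Nat.zero_le _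
  have h3 : ∀ Θ : Lb → (Fin j → V) → Q → Prop,
      Nat.card {x : (Fin j → V) × EnvL V L B d m // Θ x.2.1 x.1 x.2.2} =
      ∑ φ : Fin j → V, ∑ q : Q, Nat.card {lab // Θ lab φ q} := by
    intro Θ
    rw [card_sub_prod (fun (φ : Fin j → V) (y : EnvL V L B d m) => Θ y.1 φ y.2)]
    refine Finset.sum_congr rfl fun φ _ => ?_
    rw [← card_sub_prod (fun (q : Q) (lab : Lb) => Θ lab φ q)]
    exact card_swap (fun (lab : Lb) (q : Q) => Θ lab φ q)
  have h4 : a₀ ^ F.card * Nat.card {x : (Fin j → V) × EnvL V L B d m // CR x.2.1 x.1 x.2.2} ≤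
      L ^ F.card * Nat.card {x : (Fin j → V) × EnvL V L B d m // CS x.2.1 x.1 x.2.2} := by
    rw [h3 CR, h3 CS, Finset.mul_sum, Finset.mul_sum]
    refine Finset.sum_le_sum fun φ _ => ?_
    rw [Finset.mul_sum, Finset.mul_sum]
    exact Finset.sum_le_sum fun q _ => h1 φ q
  have h5 := hE C par hAC (fun w hw => (hpar w hw).1) hleaf
  have ha0 : (0 : ℝ) < (a₀ : ℝ) ^ F.card := by
    have : (0 : ℝ) < a₀ := by exact_mod_cast h1a
    positivity
  have h6 : prob (fun x : (Fin j → V) × EnvL V L B d m =>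
      Function.Injective x.1 ∧ Crit h (toEnv a₀ x.2) a (F.image (Sym2.map x.1)) (A.image x.1)
        (univ.image x.1)) ≤ ((L : ℝ) / a₀) ^ F.card * prob (fun x : (Fin j → V) × EnvL V L B d m =>
        Function.Injective x.1 ∧ CritS h (toEnv a₀ x.2) a x.1 C A par) := by
    rw [prob_card, prob_card, ← mul_div_assoc]
    refine div_le_div_of_nonneg_right ?_ (Nat.cast_nonneg _)
    rw [div_pow, div_mul_eq_mul_div, le_div_iff₀ ha0, mul_comm]
    exact_mod_cast h4
  calc ((m : ℝ) + 1) ^ j * prob (fun x : (Fin j → V) × EnvL V L B d m =>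
      Function.Injective x.1 ∧ Crit h (toEnv a₀ x.2) a (F.image (Sym2.map x.1)) (A.image x.1)
        (univ.image x.1))
      ≤ ((m : ℝ) + 1) ^ j * (((L : ℝ) / a₀) ^ F.card * prob (fun x : (Fin j → V) ×
        EnvL V L B d m => Function.Injective x.1 ∧ CritS h (toEnv a₀ x.2) a x.1 C A par)) :=
        mul_le_mul_of_nonneg_left h6 (by positivity)
    _ = ((L : ℝ) / a₀) ^ F.card * (((m : ℝ) + 1) ^ j * prob (fun x : (Fin j → V) ×
        EnvL V L B d m => Function.Injective x.1 ∧ CritS h (toEnv a₀ x.2) a x.1 C A par)) := by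
        ring
    _ ≤ ((L : ℝ) / a₀) ^ F.card * δ := mul_le_mul_of_nonneg_left h5 (by positivity)

end Pool.Agent.T9h71.QL
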